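import Pool.Agent.N699.SB.Spl
import Pool.Agent.N699.ST.Det

set_option autoImplicit false

/-! The equation `a p - b q = c`: the deterministic part. -/

namespace Pool.Agent.N699.SB
open Finset
open Pool.Agent.H373R2.T7
open Pool.Agent.Y820.LF
open Pool.Agent.N699.ST

/-- `a, b, c` are positive, pairwise relatively prime and not all odd. -/
def Ok (a b c : ℕ) : Prop :=
  1 ≤ a ∧ 1 ≤ b ∧ 1 ≤ c ∧ Nat.Coprime a b ∧ Nat.Coprime a c ∧ Nat.Coprime b c ∧ 2 ∣ a * b * c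

open Classical in
/-- The number of the primes `q ≤ N` for which `a p - b q = c` for a prime `p`. -/
noncomputable def sol (a b c N : ℕ) : ℕ := ((Icc 1 N).filter fun q => q.Prime ∧ ∃ p, p.Prime ∧ a * p = b * q + c).card

/-- The partial products of the singular series. -/
noncomputable def sing (a b c z : ℕ) : ℝ :=
  ∏ p ∈ (Icc 1 z).filter Nat.Prime, (1 - (if p ∣ a * b * c then 1 else 2) / (p : ℝ)) / (1 - 1 / (p : ℝ)) ^ 2

/-- the formula of Hardy and Littlewood -/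
def Formula (ε : ℝ) (U N a b c : ℕ) : Prop :=
  ∃ S : ℝ, 0 < S ∧ Filter.Tendsto (sing a b c) Filter.atTop (nhds S) ∧
    |∑ q ∈ Icc 1 N, (if a ∣ b * q + c then ArithmeticFunction.vonMangoldt q * ArithmeticFunction.vonMangoldt ((b * q + c) / a) else 0) -
      S * (N / a)| ≤ N / Real.log N ^ U ∧
    |(sol a b c N : ℝ) - S * (N / a / Real.log N ^ 2)| ≤ ε * (S * (N / a / Real.log N ^ 2))

/-- the two coefficients -/
def Cf (a b : ℕ) : Fin 2 → ℤ := Fin.cons (b : ℤ) (fun _ => (a : ℤ))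

/-- the two constants -/
def Hf (u v : ℕ) : Fin 2 → ℤ := Fin.cons (u : ℤ) (fun _ => (v : ℤ))

lemma nu_eq (a b c : ℕ) (h : Ok a b c) (u v : ℕ) (hc : a * u = b * v + c) (p : ℕ) (hp : p.Prime) :
    nuF (Cf a b) (Hf u v) p = if p ∣ a * b * c then 1 else 2 := by
  classical
  obtain ⟨_, _, _, hab, hac, hbc, _⟩ := h
  have hpz := Nat.prime_iff_prime_int.1 hp
  have hset : nuF (Cf a b) (Hf u v) p =
      ((range p).filter (fun r : ℕ => (p : ℤ) ∣ (b : ℤ) * r + u ∨ (p : ℤ) ∣ (a : ℤ) * r + v)).card := by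
    unfold nuF
    congr 1
    apply filter_congr
    intro r _
    rw [Fin.exists_fin_two]
    rfl
  rw [hset]
  have hcz : (a : ℤ) * u - b * v = c := by
    have : (a : ℤ) * u = b * v + c := by exact_mod_cast hc
    linarith
  have hcop : ∀ x y : ℕ, Nat.Coprime x y → p ∣ x → ¬ p ∣ y := by
    intro x y hxy h1 h2
    have h3 := Nat.dvd_gcd h1 h2
    rw [Nat.Coprime.gcd_eq_one hxy] at h3
    exact hp.one_lt.ne' (Nat.dvd_one.1 h3)
  by_cases ha : p ∣ a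
  · have haz : (p : ℤ) ∣ (a : ℤ) := Int.natCast_dvd_natCast.2 ha
    have hc' : ¬ (p : ℤ) ∣ (c : ℤ) := fun h => hcop _ _ hac ha (Int.natCast_dvd_natCast.1 h)
    have hb : ¬ (p : ℤ) ∣ (b : ℤ) := fun h => hcop _ _ hab ha (Int.natCast_dvd_natCast.1 h)
    have hv : ∀ r : ℕ, ¬ (p : ℤ) ∣ (a : ℤ) * r + v := by
      intro r hd
      have h1 : (p : ℤ) ∣ v := (dvd_add_right (Dvd.dvd.mul_right haz _)).1 hd
      apply hc'
      rw [← hcz]
      exact dvd_sub (Dvd.dvd.mul_right haz _) (Dvd.dvd.mul_left h1 _)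
    obtain ⟨r1, hr1, hr1'⟩ := Pool.Agent.Y820.LF.SBF.ex_rep (b : ℤ) u p hp hb
    have heq : (range p).filter (fun r : ℕ => (p : ℤ) ∣ (b : ℤ) * r + u ∨ (p : ℤ) ∣ (a : ℤ) * r + v) = {r1} := by
      ext r
      rw [mem_filter, mem_range, mem_singleton]
      constructor
      · rintro ⟨h1, h2 | h2⟩
        · exact Pool.Agent.Y820.LF.SBF.uniq_rep (b : ℤ) u p hp hb _ _ h1 hr1 h2 hr1'
        · exact absurd h2 (hv r)
      · rintro rfl
        exact ⟨hr1, Or.inl hr1'⟩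
    rw [heq, card_singleton, if_pos (Dvd.dvd.mul_right (Dvd.dvd.mul_right ha _) _)]
  · have haz : ¬ (p : ℤ) ∣ (a : ℤ) := fun h => ha (Int.natCast_dvd_natCast.1 h)
    by_cases hb : p ∣ b
    · have hbz : (p : ℤ) ∣ (b : ℤ) := Int.natCast_dvd_natCast.2 hb
      have hc' : ¬ (p : ℤ) ∣ (c : ℤ) := fun h => hcop _ _ hbc hb (Int.natCast_dvd_natCast.1 h)
      have hu : ∀ r : ℕ, ¬ (p : ℤ) ∣ (b : ℤ) * r + u := by
        intro r hd
        have h1 : (p : ℤ) ∣ u := (dvd_add_right (Dvd.dvd.mul_right hbz _)).1 hd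
        apply hc'
        rw [← hcz]
        exact dvd_sub (Dvd.dvd.mul_left h1 _) (Dvd.dvd.mul_right hbz _)
      obtain ⟨r1, hr1, hr1'⟩ := Pool.Agent.Y820.LF.SBF.ex_rep (a : ℤ) v p hp haz
      have heq : (range p).filter (fun r : ℕ => (p : ℤ) ∣ (b : ℤ) * r + u ∨ (p : ℤ) ∣ (a : ℤ) * r + v) = {r1} := by
        ext r
        rw [mem_filter, mem_range, mem_singleton]
        constructor
        · rintro ⟨h1, h2 | h2⟩
          · exact absurd h2 (hu r)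
          · exact Pool.Agent.Y820.LF.SBF.uniq_rep (a : ℤ) v p hp haz _ _ h1 hr1 h2 hr1'
        · rintro rfl
          exact ⟨hr1, Or.inr hr1'⟩
      rw [heq, card_singleton, if_pos (Dvd.dvd.mul_right (Dvd.dvd.mul_left hb _) _)]
    · have hbz : ¬ (p : ℤ) ∣ (b : ℤ) := fun h => hb (Int.natCast_dvd_natCast.1 h)
      obtain ⟨r1, hr1, hr1'⟩ := Pool.Agent.Y820.LF.SBF.ex_rep (b : ℤ) u p hp hbz
      obtain ⟨r2, hr2, hr2'⟩ := Pool.Agent.Y820.LF.SBF.ex_rep (a : ℤ) v p hp haz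
      have heq : (range p).filter (fun r : ℕ => (p : ℤ) ∣ (b : ℤ) * r + u ∨ (p : ℤ) ∣ (a : ℤ) * r + v) = {r1, r2} := by
        ext r
        rw [mem_filter, mem_range, mem_insert, mem_singleton]
        constructor
        · rintro ⟨h1, h2 | h2⟩
          · exact Or.inl (Pool.Agent.Y820.LF.SBF.uniq_rep (b : ℤ) u p hp hbz _ _ h1 hr1 h2 hr1')
          · exact Or.inr (Pool.Agent.Y820.LF.SBF.uniq_rep (a : ℤ) v p hp haz _ _ h1 hr2 h2 hr2')
        · rintro (rfl | rfl)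
          · exact ⟨hr1, Or.inl hr1'⟩
          · exact ⟨hr2, Or.inr hr2'⟩
      rw [heq]
      have hrr : r1 = r2 ↔ (p : ℤ) ∣ (c : ℤ) := by
        constructor
        · rintro rfl
          have h1 := dvd_sub (Dvd.dvd.mul_left hr1' (a : ℤ)) (Dvd.dvd.mul_left hr2' (b : ℤ))
          have e : (a : ℤ) * (b * r1 + u) - b * (a * r1 + v) = c := by rw [← hcz]; ring
          rwa [e] at h1
        · intro hpc
          have h1 : (p : ℤ) ∣ b * (a * r1 + v) := by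
            have e : (b : ℤ) * (a * r1 + v) = a * (b * r1 + u) - c := by rw [← hcz]; ring
            rw [e]
            exact dvd_sub (Dvd.dvd.mul_left hr1' _) hpc
          have h2 := (hpz.dvd_or_dvd h1).resolve_left hbz
          exact Pool.Agent.Y820.LF.SBF.uniq_rep (a : ℤ) v p hp haz _ _ hr1 hr2 h2 hr2'
      by_cases hpc : p ∣ c
      · rw [if_pos (Dvd.dvd.mul_left hpc _), hrr.2 (Int.natCast_dvd_natCast.2 hpc)]
        simp
      · rw [if_neg, card_pair (fun h => hpc (Int.natCast_dvd_natCast.1 (hrr.1 h)))]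
        intro hd
        rcases hp.dvd_mul.1 hd with h1 | h1
        · rcases hp.dvd_mul.1 h1 with h2 | h2
          · exact ha h2
          · exact hb h2
        · exact hpc h1

lemma adm (a b c : ℕ) (h : Ok a b c) (u v : ℕ) (hc : a * u = b * v + c) : AdmF (Cf a b) (Hf u v) := by
  intro p hp
  rw [nu_eq a b c h u v hc p hp]
  have h2 := hp.two_le
  by_cases hd : p ∣ a * b * c
  · rw [if_pos hd]
    omega
  · rw [if_neg hd]
    rcases Nat.lt_or_ge 2 p with h3 | h3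
    · exact h3
    · exfalso
      have : p = 2 := by omega
      subst this
      exact hd h.2.2.2.2.2.2

lemma sing_eq (a b c : ℕ) (h : Ok a b c) (u v : ℕ) (hc : a * u = b * v + c) : singF (Cf a b) (Hf u v) = sing a b c := by
  funext z
  unfold singF sing
  apply prod_congr rfl
  intro p hp
  rw [nu_eq a b c h u v hc p (mem_filter.1 hp).2]
  congr 3
  split_ifs <;> norm_num

/-- a lower bound for the limit -/
lemma S_low (k : ℕ) (hk : 1 ≤ k) : ∃ c : ℝ, 0 < c ∧ ∀ C H : Fin k → ℤ, AdmF C H → ∀ S : ℝ,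
    Filter.Tendsto (singF C H) Filter.atTop (nhds S) → c ≤ S := by
  have hkr : (1 : ℝ) ≤ k := by exact_mod_cast hk
  refine ⟨(1 / (3 * (k : ℝ))) ^ (3 * k) * Real.exp (-(2 * (k : ℝ) ^ 2)), by positivity, fun C H hA S hS => ?_⟩
  exact ge_of_tendsto' hS fun z' => local_low k hk (nuF C H) z'
    (fun p hp => Pool.Agent.Y820.LF.L.nuF_le C H hA p (mem_pz.1 hp).2) (fun p hp => hA p (mem_pz.1 hp).2)

/-- the sizes -/
lemma sizes (Q : ℕ) (hQ : 1 ≤ Q) : ∃ n0 : ℕ, ∀ N : ℕ, n0 ≤ N → ∀ a v : ℕ, 1 ≤ a → a ≤ Q → v < a →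
    (((Q * N : ℕ) : ℕ) : ℝ) ≤ (((N - v) / a : ℕ) : ℝ) * Real.log ((Q * N : ℕ) : ℝ) ^ 1 ∧
    √((Q * N : ℕ) : ℝ) ≤ (((N - v) / a : ℕ) : ℝ) ∧ a * ((N - v) / a) ≤ N ∧ (N : ℝ) ≤ 2 * Q * (((N - v) / a : ℕ) : ℝ) ∧
    (((N - v) / a : ℕ) : ℝ) ≤ N / a ∧ (N : ℝ) / a ≤ (((N - v) / a : ℕ) : ℝ) + 2 ∧
    Real.log ((Q * N : ℕ) : ℝ) ≤ 2 * Real.log N ∧ Real.log N ≤ Real.log ((Q * N : ℕ) : ℝ) := by
  obtain ⟨n1, h1⟩ := ev_L' (2 * (Q : ℝ) ^ 2)
  refine ⟨n1 + 4 * Q ^ 3 + 4 * Q + 4, fun N hN a v ha haQ hv => ?_⟩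
  have hL := h1 N (by omega)
  obtain ⟨x, hx⟩ : ∃ x, x = (N - v) / a := ⟨_, rfl⟩
  rw [← hx]
  have hQ0 : (1 : ℝ) ≤ Q := by exact_mod_cast hQ
  have hN1 : 1 ≤ N := by omega
  have hNr : (1 : ℝ) ≤ N := by exact_mod_cast hN1
  have e1 := Nat.div_add_mod (N - v) a
  have e2 := Nat.mod_lt (N - v) (by omega : 0 < a)
  rw [← hx] at e1
  have hax : a * x ≤ N := by omega
  have hax2 : N ≤ a * x + 2 * a := by omega
  have hx2 : 2 ≤ x := by
    by_contra hcon
    have h3 : a * x ≤ Q * 1 := Nat.mul_le_mul haQ (by omega)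
    omega
  have hNx : N ≤ 2 * a * x := by
    have : a * 2 ≤ a * x := Nat.mul_le_mul_left _ hx2
    have e3 : 2 * a * x = a * x + a * x := by ring
    omega
  have ha0 : (0 : ℝ) < a := by exact_mod_cast ha
  have hx0 : (0 : ℝ) ≤ x := Nat.cast_nonneg _
  have hNxr : (N : ℝ) ≤ 2 * Q * x := by
    have h3 : (N : ℝ) ≤ 2 * a * x := by exact_mod_cast hNx
    have h4 : (a : ℝ) ≤ Q := by exact_mod_cast haQ
    have h5 : 2 * (a : ℝ) * x ≤ 2 * Q * x := by
      apply mul_le_mul_of_nonneg_right _ hx0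
      linarith
    linarith
  have hlogQN : Real.log ((Q * N : ℕ) : ℝ) = Real.log Q + Real.log N := by
    push_cast
    rw [Real.log_mul (by positivity) (by positivity)]
  have hlogQ : 0 ≤ Real.log Q := Real.log_nonneg hQ0
  have hlogQ2 : Real.log Q ≤ Real.log N := by
    apply Real.log_le_log (by linarith)
    exact_mod_cast (by omega : Q ≤ N)
  rw [hlogQN]
  refine ⟨?_, ?_, hax, hNxr, ?_, ?_, by linarith, by linarith⟩
  · rw [pow_one]
    push_cast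
    have h3 : (Q : ℝ) * N ≤ Q * (2 * Q * x) := mul_le_mul_of_nonneg_left hNxr (by linarith)
    have h4 : (x : ℝ) * (2 * (Q : ℝ) ^ 2) ≤ x * (Real.log Q + Real.log N) := mul_le_mul_of_nonneg_left (by linarith) hx0
    have h5 : (Q : ℝ) * (2 * Q * x) = x * (2 * (Q : ℝ) ^ 2) := by ring
    linarith
  · rw [Real.sqrt_le_left hx0]
    push_cast
    have h3 : (4 * (Q : ℝ) ^ 3) ≤ N := by exact_mod_cast (by omega : 4 * Q ^ 3 ≤ N)
    have h4 : (N : ℝ) * N ≤ (2 * Q * x) * (2 * Q * x) := mul_le_mul hNxr hNxr (by linarith) (by positivity)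
    have h5 : (4 * (Q : ℝ) ^ 3) * N ≤ N * N := mul_le_mul_of_nonneg_right h3 (by linarith)
    have h6 : (4 * (Q : ℝ) ^ 2) * ((Q : ℝ) * (N : ℝ)) ≤ (4 * (Q : ℝ) ^ 2) * ((x : ℝ) ^ 2) := by
      have e3 : (4 * (Q : ℝ) ^ 2) * ((Q : ℝ) * (N : ℝ)) = (4 * (Q : ℝ) ^ 3) * N := by ring
      have e4 : (4 * (Q : ℝ) ^ 2) * ((x : ℝ) ^ 2) = (2 * Q * x) * (2 * Q * x) := by ring
      rw [e3, e4]
      exact h5.trans h4
    exact le_of_mul_le_mul_left h6 (by positivity)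
  · rw [le_div_iff₀ ha0, mul_comm]
    exact_mod_cast hax
  · rw [div_le_iff₀ ha0]
    have : (N : ℝ) ≤ a * x + 2 * a := by exact_mod_cast hax2
    linarith

end Pool.Agent.N699.SB
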