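import Pool.Agent.N699.SB.Det

set_option autoImplicit false

/-! The equation `a p - b q = c`: from the comparison with the model to the formula of Hardy and Littlewood. -/

namespace Pool.Agent.N699.SB
open Finset
open Pool.Agent.H373R2.T7
open Pool.Agent.Y820.LF
open Pool.Agent.N699.ST

lemma prod_two (a b u v n : ℕ) (f : ℤ → ℝ) :
    ∏ i, f (Cf a b i * (n : ℤ) + Hf u v i) = f (((b * n + u : ℕ) : ℤ)) * f (((a * n + v : ℕ) : ℤ)) := by
  rw [Fin.prod_univ_two]
  have e0 : Cf a b 0 * (n : ℤ) + Hf u v 0 = ((b * n + u : ℕ) : ℤ) := by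
    show (b : ℤ) * (n : ℤ) + (u : ℤ) = _
    push_cast
    ring
  have e1 : Cf a b 1 * (n : ℤ) + Hf u v 1 = ((a * n + v : ℕ) : ℤ) := by
    show (a : ℤ) * (n : ℤ) + (v : ℤ) = _
    push_cast
    ring
  rw [e0, e1]

lemma lamI_nat (n : ℕ) : lamI (n : ℤ) = ArithmeticFunction.vonMangoldt n := by
  unfold lamI
  rcases Nat.eq_zero_or_pos n with h | h
  · subst h
    simp
  · rw [if_pos (by exact_mod_cast h), Int.toNat_natCast]

lemma lamzI_nat (z n : ℕ) (h : 1 ≤ n) : lamzI z (n : ℤ) = lamz z n := by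
  unfold lamzI
  rw [if_pos (by exact_mod_cast h), Int.toNat_natCast]

lemma lamz_le (z n : ℕ) : lamz z n ≤ (Vz z)⁻¹ := by
  have h := (inv_pos.2 (Vz_pos z)).le
  unfold lamz
  split_ifs
  · exact le_rfl
  · exact h

lemma vM_le (n : ℕ) (X : ℝ) (hX : 1 ≤ X) (h : (n : ℝ) ≤ X) : ArithmeticFunction.vonMangoldt n ≤ Real.log X := by
  rcases Nat.eq_zero_or_pos n with h0 | h0
  · subst h0
    simp only [ArithmeticFunction.map_zero]
    exact Real.log_nonneg hX
  · exact ArithmeticFunction.vonMangoldt_le_log.trans (Real.log_le_log (by exact_mod_cast h0) h)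

open Classical in
lemma sol_W (a b c N : ℕ) (ha : 1 ≤ a) : (sol a b c N : ℝ) =
    W a b c N (fun n => if n.Prime then 1 else 0) (fun n => if n.Prime then 1 else 0) := by
  unfold sol W
  rw [card_filter, Nat.cast_sum]
  apply sum_congr rfl
  intro q _
  beta_reduce
  by_cases h1 : q.Prime
  · by_cases h2 : a ∣ b * q + c
    · obtain ⟨m, hm⟩ := h2
      rw [hm, Nat.mul_div_cancel_left _ (by omega), if_pos h1, if_pos (dvd_mul_right _ _), one_mul]
      by_cases h3 : m.Prime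
      · rw [if_pos h3, if_pos ⟨h1, m, h3, rfl⟩, Nat.cast_one]
      · rw [if_neg h3, if_neg, Nat.cast_zero]
        rintro ⟨_, p, hp, hpm⟩
        have := Nat.eq_of_mul_eq_mul_left (by omega) hpm
        subst this
        exact h3 hp
    · rw [if_neg h2, mul_zero, if_neg, Nat.cast_zero]
      rintro ⟨_, p, _, hp⟩
      exact h2 ⟨p, hp.symm⟩
  · rw [if_neg h1, zero_mul, if_neg (fun h => h1 h.1), Nat.cast_zero]

open Classical in
lemma cnt_sum (a b u v x : ℕ) : (cntF (Cf a b) (Hf u v) x : ℝ) =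
    ∑ n ∈ Icc 1 x, (if (a * n + v).Prime then (1 : ℝ) else 0) * (if (b * n + u).Prime then 1 else 0) := by
  unfold cntF
  rw [card_filter, Nat.cast_sum]
  apply sum_congr rfl
  intro n _
  have h : (∀ i, (Cf a b i * (n : ℤ) + Hf u v i).toNat.Prime) ↔ (b * n + u).Prime ∧ (a * n + v).Prime := by
    rw [Fin.forall_fin_two]
    have e0 : Cf a b 0 * (n : ℤ) + Hf u v 0 = ((b * n + u : ℕ) : ℤ) := by
      show (b : ℤ) * (n : ℤ) + (u : ℤ) = _
      push_cast
      ring
    have e1 : Cf a b 1 * (n : ℤ) + Hf u v 1 = ((a * n + v : ℕ) : ℤ) := by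
      show (a : ℤ) * (n : ℤ) + (v : ℤ) = _
      push_cast
      ring
    rw [e0, e1, Int.toNat_natCast, Int.toNat_natCast]
  by_cases h1 : (a * n + v).Prime
  · by_cases h2 : (b * n + u).Prime
    · rw [if_pos (h.2 ⟨h2, h1⟩), if_pos h1, if_pos h2]
      norm_num
    · rw [if_neg (fun h3 => h2 (h.1 h3).1), if_pos h1, if_neg h2]
      norm_num
  · rw [if_neg (fun h3 => h1 (h.1 h3).2), if_neg h1]
    norm_num

/-- numbers: the weighted form -/
lemma conv_w (WL e T S x N Y l L : ℝ) (U : ℕ) (hW : WL = e + T) (he : |e| ≤ 2 * L ^ 2) (hT : |T - S * x| ≤ x / L ^ (U + 1))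
    (hT2 : T ≤ x * (4 * L ^ 2)) (hS : 0 < S) (hx : 0 < x) (hxY : x ≤ Y) (hYx : Y ≤ x + 2) (hYN : Y ≤ N) (hl : 2 ≤ l) (hlL : l ≤ L)
    (hL : L ≤ 2 * l) (hN : 96 * l ^ (U + 2) ≤ N) : |WL - S * Y| ≤ N / l ^ U := by
  have hl0 : 0 < l := by linarith
  have hL0 : 0 < L := by linarith
  have hL1 : 1 ≤ L := by linarith
  have hLU : (1 : ℝ) ≤ L ^ (U + 1) := one_le_pow₀ hL1
  have h0 : x / L ^ (U + 1) ≤ x := div_le_self hx.le hLU
  have h1 : S ≤ 5 * L ^ 2 := by
    have h2 : S * x ≤ x * (4 * L ^ 2) + x := by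
      have := (abs_le.1 hT).1
      linarith
    have h3 : S * x ≤ (5 * L ^ 2) * x := by
      have h4 : 1 ≤ L ^ 2 := one_le_pow₀ hL1
      nlinarith
    exact le_of_mul_le_mul_right h3 hx
  have h2 : |WL - S * Y| ≤ 2 * L ^ 2 + x / L ^ (U + 1) + 2 * (5 * L ^ 2) := by
    have e1 : WL - S * Y = e + (T - S * x) + (-(S * (Y - x))) := by rw [hW]; ring
    rw [e1]
    refine (abs_add_le _ _).trans (add_le_add ((abs_add_le _ _).trans (add_le_add he hT)) ?_)
    rw [abs_neg, abs_of_nonneg (mul_nonneg hS.le (by linarith))]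
    calc S * (Y - x) ≤ S * 2 := mul_le_mul_of_nonneg_left (by linarith) hS.le
      _ ≤ (5 * L ^ 2) * 2 := mul_le_mul_of_nonneg_right h1 (by norm_num)
      _ = _ := by ring
  have h3 : L ^ 2 ≤ 4 * l ^ 2 := by nlinarith
  have hN0 : 0 < N := by linarith
  have h4 : x / L ^ (U + 1) ≤ 1 / 2 * (N / l ^ U) := by
    calc x / L ^ (U + 1) ≤ N / l ^ (U + 1) := div_le_div₀ hN0.le (by linarith) (by positivity) (pow_le_pow_left₀ hl0.le hlL _)
      _ = (1 / l) * (N / l ^ U) := by rw [pow_succ]; field_simp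
      _ ≤ 1 / 2 * (N / l ^ U) := by
          apply mul_le_mul_of_nonneg_right _ (by positivity)
          exact one_div_le_one_div_of_le (by norm_num) hl
  have h5 : 48 * l ^ 2 ≤ 1 / 2 * (N / l ^ U) := by
    have h6 : 96 * l ^ 2 ≤ N / l ^ U := by
      rw [le_div_iff₀ (by positivity)]
      calc 96 * l ^ 2 * l ^ U = 96 * l ^ (U + 2) := by rw [pow_add]; ring
        _ ≤ N := hN
    linarith
  linarith

/-- numbers: the number of the solutions -/
lemma conv_c (sol e T S x N Y l L ε c q Q : ℝ) (hsol : sol = e + T) (he0 : 0 ≤ e) (he : e ≤ 1)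
    (hT : |T - S * (x / L ^ 2)| ≤ ε / 4 * (S * (x / L ^ 2))) (hc : 0 < c) (hS : c ≤ S) (hx : 0 < x) (hxY : x ≤ Y) (hYx : Y ≤ x + 2)
    (hQ : 1 ≤ Q) (hNY : N ≤ Q * Y) (hl : 2 ≤ l) (hL : L = q + l) (hq : 0 ≤ q) (hε : 0 < ε) (hqε : 8 * q ≤ ε * l)
    (hN1 : 16 * Q ≤ ε * N) (hN2 : 8 * Q * l ^ 2 ≤ ε * c * N) :
    |sol - S * (Y / l ^ 2)| ≤ ε * (S * (Y / l ^ 2)) := by
  have hl0 : 0 < l := by linarith
  have hlL : l ≤ L := by linarith
  have hL0 : 0 < L := by linarith
  have hS0 : 0 < S := by linarith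
  have hY0 : 0 < Y := by linarith
  have hQ0 : 0 < Q := by linarith
  have hl2 : 0 < l ^ 2 := by positivity
  have hL2 : 0 < L ^ 2 := by positivity
  have hll : l ^ 2 ≤ L ^ 2 := pow_le_pow_left₀ hl0.le hlL 2
  obtain ⟨R, hR⟩ : ∃ R, R = S * (Y / l ^ 2) := ⟨_, rfl⟩
  have hR0 : 0 < R := by rw [hR]; positivity
  -- 1 ≤ (ε / 8) R
  have h1 : 1 ≤ ε / 8 * R := by
    have h2 : 8 * Q * l ^ 2 ≤ ε * c * (Q * Y) := hN2.trans (mul_le_mul_of_nonneg_left hNY (by positivity))
    have h3 : 8 * l ^ 2 ≤ ε * c * Y := by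
      have : Q * (8 * l ^ 2) ≤ Q * (ε * c * Y) := by linarith
      exact le_of_mul_le_mul_left this hQ0
    have h4 : ε * c * Y ≤ ε * S * Y := by
      apply mul_le_mul_of_nonneg_right _ hY0.le
      exact mul_le_mul_of_nonneg_left hS hε.le
    have h5 : ε / 8 * R = (ε * S * Y) / (8 * l ^ 2) := by rw [hR]; field_simp
    rw [h5, le_div_iff₀ (by positivity), one_mul]
    linarith
  have h2 : 2 * (S / L ^ 2) ≤ ε / 8 * R := by
    have h3 : 16 ≤ ε * Y := by
      have : Q * 16 ≤ Q * (ε * Y) := by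
        have := mul_le_mul_of_nonneg_left hNY hε.le
        linarith
      exact le_of_mul_le_mul_left this hQ0
    calc 2 * (S / L ^ 2) ≤ 2 * (S / l ^ 2) := by
          apply mul_le_mul_of_nonneg_left _ (by norm_num)
          exact div_le_div_of_nonneg_left hS0.le hl2 hll
      _ ≤ (ε * Y / 8) * (S / l ^ 2) := by
          apply mul_le_mul_of_nonneg_right _ (by positivity)
          linarith
      _ = _ := by rw [hR]; ring
  have h3 : S * (Y / l ^ 2) - S * (Y / L ^ 2) ≤ ε / 4 * R := by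
    have h4 : S * (Y / l ^ 2) - S * (Y / L ^ 2) = R * ((L ^ 2 - l ^ 2) / L ^ 2) := by
      rw [hR]
      field_simp
    rw [h4, mul_comm]
    apply mul_le_mul_of_nonneg_right _ hR0.le
    rw [div_le_iff₀ hL2]
    have h5 : L ^ 2 - l ^ 2 = q * (L + l) := by rw [hL]; ring
    rw [h5]
    have h6 : q * (L + l) ≤ q * (2 * L) := mul_le_mul_of_nonneg_left (by linarith) hq
    have h7 : 8 * q ≤ ε * L := hqε.trans (mul_le_mul_of_nonneg_left hlL hε.le)
    have h8 : 8 * q * L ≤ ε * L * L := mul_le_mul_of_nonneg_right h7 hL0.le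
    nlinarith
  have h4 : S * (Y / L ^ 2) - S * (x / L ^ 2) ≤ ε / 8 * R := by
    refine le_trans ?_ h2
    have h5 : S * (Y / L ^ 2) - S * (x / L ^ 2) = (Y - x) * (S / L ^ 2) := by ring
    rw [h5]
    exact mul_le_mul_of_nonneg_right (by linarith) (by positivity)
  have h5 : S * (x / L ^ 2) ≤ S * (Y / L ^ 2) := mul_le_mul_of_nonneg_left (div_le_div_of_nonneg_right hxY hL2.le) hS0.le
  have h6 : S * (Y / L ^ 2) ≤ R := by
    rw [hR]
    exact mul_le_mul_of_nonneg_left (div_le_div_of_nonneg_left hY0.le hl2 hll) hS0.le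
  have h7 : ε / 4 * (S * (x / L ^ 2)) ≤ ε / 4 * R := mul_le_mul_of_nonneg_left (h5.trans h6) (by positivity)
  rw [← hR]
  rw [← hR] at h3
  have h8 := abs_le.1 hT
  have hεR : 0 < ε * R := by positivity
  rw [abs_le]
  constructor
  · linarith
  · linarith

end Pool.Agent.N699.SB
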