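import Pool.Agent.N699.SB.Frm
import Pool.Agent.N699.SA.MO

set_option autoImplicit false

/-! The equation `a p - b q = c` with a random `c` whose digits depend on their mirror images. -/

namespace Pool.Agent.N699.SB
open Finset
open Pool.Agent.H373R2.T7
open Pool.Agent.Y820.LF
open Pool.Agent.N699.ST
open Pool.Agent.N699.SA
open Pool.Agent.TH872.Mir
open Pool.Agent.N469.PT

/-- all the equations with coefficients up to `Q` -/
def AllEq (ε : ℝ) (U Q N c : ℕ) : Prop := ∀ a b : ℕ, a ≤ Q → b ≤ Q → Ok a b c → Formula ε U N a b c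

lemma weight_nonneg' (b k : ℕ) (η : ℝ) (w : ℕ → ℕ × ℕ → ℝ) (u : ℕ → ℝ) (hw : Mirr b (k / 2) η w) (hu : ∀ a, 0 ≤ u a) (v : ℕ) :
    0 ≤ weight b k w u v := by
  unfold weight
  apply mul_nonneg
  · exact prod_nonneg fun j hj => hw.nonneg j (mem_range.1 hj) _
  · split_ifs
    · exact hu _
    · norm_num

open Classical in
theorem core (β B : ℕ) (hβ : 2 ≤ β) (η : ℝ) (hη : 0 < η) (κ : ℕ) (hκ : 1 ≤ κ) (Q U : ℕ) (hQ : 1 ≤ Q) (ε : ℝ) (hε : 0 < ε) :
    ∃ N₀ : ℕ, ∀ N, N₀ ≤ N → ∀ (k : ℕ) (w : ℕ → ℕ × ℕ → ℝ) (u : ℕ → ℝ), β ^ k ≤ B * N → N ≤ B * β ^ k →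
    Mirr β (k / 2) η w → (∀ a, 0 ≤ u a) → ∑ a ∈ range β, u a = 1 → ∀ c₀ : ℕ, c₀ ≤ B * N →
    ∑ v ∈ range (β ^ k), (if ¬ AllEq ε U Q N (c₀ + κ * v) then weight β k w u v else 0) ≤ 1 / Real.log N ^ U := by
  obtain ⟨V, hV⟩ : ∃ V, V = 2 * U + 5 := ⟨_, rfl⟩
  obtain ⟨R, hR⟩ : ∃ R, R = Q + B + κ * B := ⟨_, rfl⟩
  obtain ⟨Bx, hBx⟩ : ∃ Bx, Bx = Q * R + R + 1 := ⟨_, rfl⟩
  have hκz : (κ : ℤ) ≠ 0 := by exact_mod_cast (by omega : κ ≠ 0)
  choose B1 h1 using fun i : ℕ => mirror_oneA β B hβ η hη (κ : ℤ) hκz B V (i + 1) Bx (by omega) (by omega)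
  choose B2 h2 using fun i : ℕ => mirror_oneA β B hβ η hη (-(κ : ℤ)) (neg_ne_zero.2 hκz) B V (i + 1) Bx (by omega) (by omega)
  obtain ⟨E1, hE1⟩ : ∃ E1, E1 = U + 8 + ∑ i ∈ range Q, (B1 i + B2 i) := ⟨_, rfl⟩
  choose n1 hn1 using fun i => h1 i (E1 + 2)
  choose n2 hn2 using fun i => h2 i (E1 + 2)
  obtain ⟨n3, h3⟩ := det_eq Q (B + κ * B) U hQ ε hε E1 (by omega)
  obtain ⟨n4, h4⟩ := Vz_inv_small (E1 + 1)
  have hQ0 : (1 : ℝ) ≤ Q := by exact_mod_cast hQ
  obtain ⟨n5, h5⟩ := ev_L' ((2 : ℝ) ^ (E1 + 1) + 3 * (Q : ℝ) ^ 2 + 2)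
  obtain ⟨nt, hnt⟩ : ∃ nt, nt = ∑ i ∈ range Q, (n1 i + n2 i) := ⟨_, rfl⟩
  have hBi : ∀ i, i < Q → B1 i + B2 i ≤ E1 := by
    intro i hi
    have e1 := single_le_sum (f := fun i => B1 i + B2 i) (fun _ _ => Nat.zero_le _) (mem_range.2 hi)
    omega
  have hni : ∀ i, i < Q → n1 i + n2 i ≤ nt := by
    intro i hi
    have e1 := single_le_sum (f := fun i => n1 i + n2 i) (fun _ _ => Nat.zero_le _) (mem_range.2 hi)
    omega
  refine ⟨nt + n3 + n4 + n5 + Q + 1, fun N hN k w u hk1 hk2 hw hu0 hu1 c₀ hc₀ => ?_⟩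
  have a5 := h5 N (by omega)
  obtain ⟨l, hl⟩ : ∃ l : ℝ, l = Real.log (N : ℝ) := ⟨_, rfl⟩
  obtain ⟨L, hL⟩ : ∃ L : ℝ, L = Real.log ((Q * N : ℕ) : ℝ) := ⟨_, rfl⟩
  have hN0 : (0 : ℝ) < N := by exact_mod_cast (by omega : 0 < N)
  have hNM : N ≤ Q * N := Nat.le_mul_of_pos_left _ hQ
  rw [← hl] at a5
  have p1 : (0 : ℝ) < 2 ^ (E1 + 1) := by positivity
  have p2 : (0 : ℝ) < 3 * (Q : ℝ) ^ 2 := by positivity
  have hl2 : 2 ≤ l := by linarith
  have hl0 : 0 < l := by linarith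
  have hl1 : 1 ≤ l := by linarith
  have hlL : l ≤ L := by
    rw [hl, hL]
    exact Real.log_le_log hN0 (by exact_mod_cast hNM)
  have hL2l : L ≤ 2 * l := by
    have e1 : L = Real.log Q + l := by
      rw [hL, hl]
      push_cast
      rw [Real.log_mul (by positivity) hN0.ne']
    have e2 : Real.log Q ≤ l := by
      rw [hl]
      exact Real.log_le_log (by linarith) (by exact_mod_cast (by omega : Q ≤ N))
    linarith
  have hL1 : 1 ≤ L := by linarith
  have hL0 : 0 < L := by linarith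
  -- the level
  obtain ⟨z, hz⟩ : ∃ z, z = ⌈L ^ E1⌉₊ := ⟨_, rfl⟩
  have hz1 : L ^ E1 ≤ z := by rw [hz]; exact Nat.le_ceil _
  have hz2 : (z : ℝ) ≤ L ^ (E1 + 1) := by
    have q1 : (z : ℝ) < L ^ E1 + 1 := by rw [hz]; exact Nat.ceil_lt_add_one (by positivity)
    have q2 : 1 ≤ L ^ E1 := one_le_pow₀ hL1
    have q3 : 2 * L ^ E1 ≤ L * L ^ E1 := mul_le_mul_of_nonneg_right (by linarith) (by positivity)
    rw [pow_succ]
    linarith
  have hzn : 1 ≤ z := by
    have : (1 : ℝ) ≤ z := (one_le_pow₀ hL1).trans hz1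
    exact_mod_cast this
  have hzl : (z : ℝ) ≤ l ^ (E1 + 2) := by
    refine hz2.trans ?_
    calc L ^ (E1 + 1) ≤ (2 * l) ^ (E1 + 1) := pow_le_pow_left₀ hL0.le hL2l _
      _ = 2 ^ (E1 + 1) * l ^ (E1 + 1) := mul_pow _ _ _
      _ ≤ l * l ^ (E1 + 1) := by
          apply mul_le_mul_of_nonneg_right _ (by positivity)
          linarith
      _ = _ := by ring
  have hVz : (Vz z)⁻¹ ≤ L := by
    have := h4 (Q * N) (by omega) z hzn (by rw [← hL]; exact hz2)
    rwa [← hL] at this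
  have hzB : ∀ t, t ≤ E1 → l ^ t ≤ z := fun t ht =>
    ((pow_le_pow_left₀ hl0.le hlL _).trans (pow_le_pow_right₀ hL1 ht)).trans hz1
  obtain ⟨p, hp⟩ : ∃ p : ℕ → ℝ, p = weight β k w u := ⟨_, rfl⟩
  rw [← hp]
  have hp0 : ∀ v, 0 ≤ p v := fun v => by rw [hp]; exact weight_nonneg' β k η w u hw hu0 v
  -- sizes
  have hcv : ∀ v ∈ range (β ^ k), c₀ + κ * v ≤ (B + κ * B) * N := by
    intro v hv
    rw [mem_range] at hv
    have e1 : κ * v ≤ κ * (B * N) := Nat.mul_le_mul_left _ (by omega)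
    have e2 : (B + κ * B) * N = B * N + κ * (B * N) := by ring
    omega
  have hR1 : R * N = Q * N + (B + κ * B) * N := by rw [hR]; ring
  have hXB : Q * (R * N) ≤ Bx * N := by
    have e1 : Bx * N = Q * (R * N) + R * N + N := by rw [hBx]; ring
    omega
  have hRB : R * N ≤ Bx * N := by
    have e1 : Bx * N = Q * (R * N) + R * N + N := by rw [hBx]; ring
    omega
  have hQR : Q * N ≤ Q * (R * N) := Nat.mul_le_mul_left _ (by omega)
  have hNBR : N ≤ Bx * (R * N) := by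
    have e1 : 1 * (R * N) ≤ Bx * (R * N) := Nat.mul_le_mul_right _ (by omega)
    omega
  have hNBN : N ≤ Bx * N := Nat.le_mul_of_pos_left _ (by omega)
  -- the average of the difference
  have havg : ∀ i j, i < Q → j < Q → ∑ v ∈ range (β ^ k), p v *
      |W (i + 1) (j + 1) (c₀ + κ * v) N (fun n => ArithmeticFunction.vonMangoldt n) (fun n => ArithmeticFunction.vonMangoldt n) -
        W (i + 1) (j + 1) (c₀ + κ * v) N (lamz z) (lamz z)| ≤ 3 * l * (N / l ^ V) := by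
    intro i j hi hj
    have e1 := hn1 i N (by have := hni i hi; omega) k w u hk1 hk2 hw hu0 hu1 (c₀ : ℤ) (by
      rw [abs_of_nonneg (by positivity)]; exact_mod_cast hc₀) (R * N) ((j + 1) * N) hRB hNBR
      ((Nat.mul_le_mul_right _ (by omega)).trans (hQR.trans hXB)) z (by
        rw [← hl]; exact hzB _ (by have := hBi i hi; omega)) (by rw [← hl]; exact hzl) l hl0
    have e2 := hn2 j N (by have := hni j hj; omega) k w u hk1 hk2 hw hu0 hu1 (-(c₀ : ℤ)) (by
      rw [abs_neg, abs_of_nonneg (by positivity)]; exact_mod_cast hc₀) N ((i + 1) * (R * N)) hNBN hNBN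
      ((Nat.mul_le_mul_right _ (by omega)).trans hXB) z (by
        rw [← hl]; exact hzB _ (by have := hBi j hj; omega)) (by rw [← hl]; exact hzl) (2 * l) (by linarith)
    rw [← hp, ← hl] at e1 e2
    have f1 := one_mult ((j + 1) * N) N (j + 1) (by omega) le_rfl (range (β ^ k)) p
      (fun m v => dLI (i + 1) (R * N) z (m + ((c₀ : ℤ) + (κ : ℤ) * (v : ℤ)))) l (l * (N / l ^ V)) hl0.le
      (fun G hG => e1 G hG) (fun n => ArithmeticFunction.vonMangoldt n) (by
        intro n hn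
        rw [mem_Icc] at hn
        rw [abs_of_nonneg ArithmeticFunction.vonMangoldt_nonneg, hl]
        apply ArithmeticFunction.vonMangoldt_le_log.trans
        exact Real.log_le_log (by exact_mod_cast hn.1) (by exact_mod_cast hn.2))
    have f2 := one_mult ((i + 1) * (R * N)) (R * N) (i + 1) (by omega) le_rfl (range (β ^ k)) p
      (fun m v => dLI (j + 1) N z (m + (-(c₀ : ℤ) + (-(κ : ℤ)) * (v : ℤ)))) (2 * l) (2 * l * (N / l ^ V)) (by linarith)
      (fun G hG => e2 G hG) (lamz z) (by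
        intro n _
        rw [abs_of_nonneg (lamz_nonneg _ _)]
        exact ((lamz_le z n).trans hVz).trans hL2l)
    have e3 : 3 * l * (N / l ^ V) = l * (N / l ^ V) + 2 * l * (N / l ^ V) := by ring
    rw [e3]
    refine le_trans ?_ (add_le_add f1 f2)
    rw [← sum_add_distrib]
    apply sum_le_sum
    intro v hv
    rw [← mul_add]
    apply mul_le_mul_of_nonneg_left _ (hp0 v)
    have hXv : ((j + 1) * N + (c₀ + κ * v)) / (i + 1) ≤ R * N := by
      refine (Nat.div_le_self _ _).trans ?_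
      have q1 := hcv v hv
      have q2 : (j + 1) * N ≤ Q * N := Nat.mul_le_mul_right _ (by omega)
      omega
    have g1 := W_D1 (i + 1) (j + 1) (c₀ + κ * v) N (R * N) z hXv (by omega) (fun n => ArithmeticFunction.vonMangoldt n)
    have g2 := W_D2 (i + 1) (j + 1) (c₀ + κ * v) N (R * N) z hXv (by omega) (by omega) (lamz z)
    have g3 : W (i + 1) (j + 1) (c₀ + κ * v) N (fun n => ArithmeticFunction.vonMangoldt n) (fun n => ArithmeticFunction.vonMangoldt n) -
        W (i + 1) (j + 1) (c₀ + κ * v) N (lamz z) (lamz z) =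
        (W (i + 1) (j + 1) (c₀ + κ * v) N (fun n => ArithmeticFunction.vonMangoldt n) (fun n => ArithmeticFunction.vonMangoldt n) -
          W (i + 1) (j + 1) (c₀ + κ * v) N (fun n => ArithmeticFunction.vonMangoldt n) (lamz z)) +
        (W (i + 1) (j + 1) (c₀ + κ * v) N (fun n => ArithmeticFunction.vonMangoldt n) (lamz z) -
          W (i + 1) (j + 1) (c₀ + κ * v) N (lamz z) (lamz z)) := by ring
    rw [g3, g1, g2]
    refine (abs_add_le _ _).trans (le_of_eq ?_)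
    have t1 : ∑ q ∈ Icc 1 N, ArithmeticFunction.vonMangoldt q *
        dLI (i + 1) (R * N) z (((j + 1 : ℕ) : ℤ) * (q : ℤ) + ((c₀ + κ * v : ℕ) : ℤ)) =
        ∑ q ∈ Icc 1 N, ArithmeticFunction.vonMangoldt q *
        dLI (i + 1) (R * N) z (((j + 1 : ℕ) : ℤ) * (q : ℤ) + ((c₀ : ℤ) + (κ : ℤ) * (v : ℤ))) := by
      apply sum_congr rfl
      intro q _
      have q1 : ((c₀ + κ * v : ℕ) : ℤ) = (c₀ : ℤ) + (κ : ℤ) * (v : ℤ) := by push_cast; ring
      rw [q1]
    have t2 : ∑ m ∈ Icc 1 (R * N), lamz z m *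
        dLI (j + 1) N z (((i + 1 : ℕ) : ℤ) * (m : ℤ) + (-((c₀ + κ * v : ℕ) : ℤ))) =
        ∑ m ∈ Icc 1 (R * N), lamz z m *
        dLI (j + 1) N z (((i + 1 : ℕ) : ℤ) * (m : ℤ) + (-(c₀ : ℤ) + (-(κ : ℤ)) * (v : ℤ))) := by
      apply sum_congr rfl
      intro q _
      have q1 : (-((c₀ + κ * v : ℕ) : ℤ)) = -(c₀ : ℤ) + (-(κ : ℤ)) * (v : ℤ) := by push_cast; ring
      rw [q1]
    rw [t1, t2]
  -- the union bound
  obtain ⟨K, hK⟩ : ∃ K : ℝ, K = l ^ (U + 3) / N := ⟨_, rfl⟩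
  have hK0 : 0 ≤ K := by rw [hK]; positivity
  have hpt : ∀ v ∈ range (β ^ k), (if ¬ AllEq ε U Q N (c₀ + κ * v) then p v else 0) ≤
      ∑ i ∈ range Q, ∑ j ∈ range Q, K * (p v *
      |W (i + 1) (j + 1) (c₀ + κ * v) N (fun n => ArithmeticFunction.vonMangoldt n) (fun n => ArithmeticFunction.vonMangoldt n) -
        W (i + 1) (j + 1) (c₀ + κ * v) N (lamz z) (lamz z)|) := by
    intro v hv
    have hnn : ∀ i ∈ range Q, ∀ j ∈ range Q, 0 ≤ K * (p v *
      |W (i + 1) (j + 1) (c₀ + κ * v) N (fun n => ArithmeticFunction.vonMangoldt n) (fun n => ArithmeticFunction.vonMangoldt n) -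
        W (i + 1) (j + 1) (c₀ + κ * v) N (lamz z) (lamz z)|) := fun i _ j _ =>
      mul_nonneg hK0 (mul_nonneg (hp0 v) (abs_nonneg _))
    by_cases hall : AllEq ε U Q N (c₀ + κ * v)
    · rw [if_neg (not_not.2 hall)]
      exact sum_nonneg fun i hi => sum_nonneg (hnn i hi)
    · rw [if_pos hall]
      unfold AllEq at hall
      push Not at hall
      obtain ⟨a, b, haQ, hbQ, hOk, hF⟩ := hall
      obtain ⟨i, rfl⟩ : ∃ i, a = i + 1 := ⟨a - 1, by have := hOk.1; omega⟩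
      obtain ⟨j, rfl⟩ : ∃ j, b = j + 1 := ⟨b - 1, by have := hOk.2.1; omega⟩
      have q1 : N / l ^ (U + 3) < |W (i + 1) (j + 1) (c₀ + κ * v) N (fun n => ArithmeticFunction.vonMangoldt n) (fun n => ArithmeticFunction.vonMangoldt n) -
          W (i + 1) (j + 1) (c₀ + κ * v) N (lamz z) (lamz z)| := by
        by_contra hcon
        push Not at hcon
        exact hF (h3 N (by omega) z (by rw [← hL]; exact hz1) (by rw [← hL]; exact hz2) (i + 1) (j + 1) (c₀ + κ * v) haQ hbQ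
          (hcv v hv) hOk (by rw [← hl]; exact hcon))
      have q2 := single_le_sum (f := fun j => K * (p v *
        |W (i + 1) (j + 1) (c₀ + κ * v) N (fun n => ArithmeticFunction.vonMangoldt n) (fun n => ArithmeticFunction.vonMangoldt n) -
          W (i + 1) (j + 1) (c₀ + κ * v) N (lamz z) (lamz z)|)) (hnn i (mem_range.2 (by omega))) (mem_range.2 (by omega : j < Q))
      have q3 := single_le_sum (f := fun i => ∑ j ∈ range Q, K * (p v *
        |W (i + 1) (j + 1) (c₀ + κ * v) N (fun n => ArithmeticFunction.vonMangoldt n) (fun n => ArithmeticFunction.vonMangoldt n) -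
          W (i + 1) (j + 1) (c₀ + κ * v) N (lamz z) (lamz z)|)) (fun i hi => sum_nonneg (hnn i hi)) (mem_range.2 (by omega : i < Q))
      refine le_trans ?_ (q2.trans q3)
      have q4 : 1 ≤ K * |W (i + 1) (j + 1) (c₀ + κ * v) N (fun n => ArithmeticFunction.vonMangoldt n) (fun n => ArithmeticFunction.vonMangoldt n) -
          W (i + 1) (j + 1) (c₀ + κ * v) N (lamz z) (lamz z)| := by
        have q5 : K * (N / l ^ (U + 3)) = 1 := by rw [hK]; field_simp
        rw [← q5]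
        exact mul_le_mul_of_nonneg_left q1.le hK0
      calc p v = p v * 1 := (mul_one _).symm
        _ ≤ p v * (K * |W (i + 1) (j + 1) (c₀ + κ * v) N (fun n => ArithmeticFunction.vonMangoldt n) (fun n => ArithmeticFunction.vonMangoldt n) -
          W (i + 1) (j + 1) (c₀ + κ * v) N (lamz z) (lamz z)|) := mul_le_mul_of_nonneg_left q4 (hp0 v)
        _ = _ := by ring
  refine (sum_le_sum hpt).trans ?_
  rw [sum_comm]
  have hij : ∀ i ∈ range Q, ∑ v ∈ range (β ^ k), ∑ j ∈ range Q, K * (p v *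
      |W (i + 1) (j + 1) (c₀ + κ * v) N (fun n => ArithmeticFunction.vonMangoldt n) (fun n => ArithmeticFunction.vonMangoldt n) -
        W (i + 1) (j + 1) (c₀ + κ * v) N (lamz z) (lamz z)|) ≤ Q * (K * (3 * l * (N / l ^ V))) := by
    intro i hi
    rw [sum_comm]
    have q1 : ∀ j ∈ range Q, ∑ v ∈ range (β ^ k), K * (p v *
      |W (i + 1) (j + 1) (c₀ + κ * v) N (fun n => ArithmeticFunction.vonMangoldt n) (fun n => ArithmeticFunction.vonMangoldt n) -
        W (i + 1) (j + 1) (c₀ + κ * v) N (lamz z) (lamz z)|) ≤ K * (3 * l * (N / l ^ V)) := by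
      intro j hj
      rw [← mul_sum]
      exact mul_le_mul_of_nonneg_left (havg i j (mem_range.1 hi) (mem_range.1 hj)) hK0
    refine (sum_le_sum q1).trans (le_of_eq ?_)
    rw [sum_const, card_range, nsmul_eq_mul]
  refine (sum_le_sum hij).trans ?_
  rw [sum_const, card_range, nsmul_eq_mul, ← hl]
  have e1 : (Q : ℝ) * (Q * (K * (3 * l * (N / l ^ V)))) = (3 * (Q : ℝ) ^ 2) * l ^ (U + 4) / l ^ V := by
    rw [hK, show l ^ (U + 4) = l * l ^ (U + 3) by ring]
    field_simp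
  rw [e1, div_le_div_iff₀ (by positivity) (by positivity), one_mul]
  calc (3 * (Q : ℝ) ^ 2) * l ^ (U + 4) * l ^ U ≤ l * l ^ (U + 4) * l ^ U := by
        apply mul_le_mul_of_nonneg_right _ (by positivity)
        apply mul_le_mul_of_nonneg_right _ (by positivity)
        linarith
    _ = l ^ V := by rw [hV]; ring

end Pool.Agent.N699.SB
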