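import Pool.Agent.N699.SB.Eqn

set_option autoImplicit false

/-! The equation `a p - b q = c`: all the deterministic parts together. -/

namespace Pool.Agent.N699.SB
open Finset
open Pool.Agent.H373R2.T7
open Pool.Agent.Y820.LF
open Pool.Agent.N699.ST

/-- the comparison with the main term -/
lemma err_half (x L l : ℝ) (U : ℕ) (hx : 0 ≤ x) (hL0 : 0 < L) (hl0 : 0 < l) (hlL : L ≤ 2 * l) (hbig : 2 ^ (U + 4) ≤ L) :
    x / l ^ (U + 3) ≤ (1 / 2) * (x / L ^ (U + 2)) := by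
  rw [div_le_iff₀ (by positivity)]
  have h5 : L ^ (U + 3) ≤ 2 ^ (U + 3) * l ^ (U + 3) := by
    rw [← mul_pow]
    exact pow_le_pow_left₀ hL0.le hlL _
  have h6 : (2 : ℝ) ^ (U + 4) = 2 * 2 ^ (U + 3) := by ring
  have h7 : L ^ (U + 3) = L * L ^ (U + 2) := by ring
  have h8 : 1 / 2 * (x / L ^ (U + 2)) * l ^ (U + 3) = x * (1 / 2 * (l ^ (U + 3) / L ^ (U + 2))) := by ring
  rw [h8]
  apply le_mul_of_one_le_right hx
  have h9 : 2 ≤ l ^ (U + 3) / L ^ (U + 2) := by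
    rw [le_div_iff₀ (by positivity)]
    have h10 : 2 * L ^ (U + 2) * 2 ^ (U + 3) ≤ l ^ (U + 3) * 2 ^ (U + 3) := by
      calc 2 * L ^ (U + 2) * 2 ^ (U + 3) = 2 ^ (U + 4) * L ^ (U + 2) := by rw [h6]; ring
        _ ≤ L * L ^ (U + 2) := by
            apply mul_le_mul_of_nonneg_right _ (by positivity)
            linarith
        _ = L ^ (U + 3) := h7.symm
        _ ≤ 2 ^ (U + 3) * l ^ (U + 3) := h5
        _ = _ := by ring
    exact le_of_mul_le_mul_right h10 (by positivity)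
  linarith

/-- numbers: the comparison of the two sums -/
lemma conv_T (N x L l Q : ℝ) (U : ℕ) (hx : N ≤ 2 * Q * x) (hx0 : 0 < x) (hQ : 1 ≤ Q) (hl : 2 ≤ l) (hL0 : 0 < L) (hL : L ≤ 2 * l)
    (hbig : Q * 2 ^ (U + 5) ≤ l) (hN : Q * 2 ^ (U + 9) * l ^ (U + 4) ≤ N) :
    N / l ^ (U + 3) + 3 * L ^ 2 ≤ 1 / 2 * (x / L ^ (U + 2)) := by
  have hl0 : 0 < l := by linarith
  have hQ0 : 0 < Q := by linarith
  have hN0 : 0 < N := lt_of_lt_of_le (by positivity) hN
  have e3 : N / (2 * Q) ≤ x := by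
    rw [div_le_iff₀ (by positivity)]
    linarith
  have e4 : L ^ (U + 2) ≤ 2 ^ (U + 2) * l ^ (U + 2) := by
    rw [← mul_pow]
    exact pow_le_pow_left₀ hL0.le hL _
  have e5 : N / (Q * 2 ^ (U + 4) * l ^ (U + 2)) ≤ 1 / 2 * (x / L ^ (U + 2)) := by
    have e6 : N / (Q * 2 ^ (U + 4) * l ^ (U + 2)) = 1 / 2 * ((N / (2 * Q)) / (2 ^ (U + 2) * l ^ (U + 2))) := by
      rw [show (2 : ℝ) ^ (U + 4) = 4 * 2 ^ (U + 2) by ring]
      field_simp
      norm_num
    rw [e6]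
    apply mul_le_mul_of_nonneg_left _ (by norm_num)
    exact div_le_div₀ hx0.le e3 (by positivity) e4
  refine le_trans ?_ e5
  obtain ⟨R, hR⟩ : ∃ R, R = N / (Q * 2 ^ (U + 4) * l ^ (U + 2)) := ⟨_, rfl⟩
  have e7 : N / l ^ (U + 3) ≤ 1 / 2 * R := by
    have e8 : 1 / 2 * R = N / (Q * 2 ^ (U + 5) * l ^ (U + 2)) := by
      rw [hR, show (2 : ℝ) ^ (U + 5) = 2 * 2 ^ (U + 4) by ring]
      field_simp
    rw [e8]
    apply div_le_div_of_nonneg_left hN0.le (by positivity)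
    rw [show l ^ (U + 3) = l * l ^ (U + 2) by ring]
    exact mul_le_mul_of_nonneg_right hbig (by positivity)
  have e10 : L ^ 2 ≤ 4 * l ^ 2 := by
    have : L ^ 2 ≤ (2 * l) ^ 2 := pow_le_pow_left₀ hL0.le hL 2
    calc L ^ 2 ≤ (2 * l) ^ 2 := this
      _ = _ := by ring
  have e13 : 24 * l ^ 2 ≤ R := by
    rw [hR, le_div_iff₀ (by positivity)]
    refine le_trans ?_ hN
    have e15 : 24 * l ^ 2 * (Q * 2 ^ (U + 4) * l ^ (U + 2)) = 24 * (Q * 2 ^ (U + 4) * l ^ (U + 4)) := by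
      rw [show l ^ (U + 4) = l ^ 2 * l ^ (U + 2) by ring]
      ring
    have e16 : Q * 2 ^ (U + 9) * l ^ (U + 4) = 32 * (Q * 2 ^ (U + 4) * l ^ (U + 4)) := by
      rw [show (2 : ℝ) ^ (U + 9) = 32 * 2 ^ (U + 4) by ring]
      ring
    rw [e15, e16]
    apply mul_le_mul_of_nonneg_right (by norm_num) (by positivity)
  rw [← hR]
  linarith

/-- all the deterministic parts -/
theorem det_eq (Q B U : ℕ) (hQ : 1 ≤ Q) (ε : ℝ) (hε : 0 < ε) (E1 : ℕ) (hE1 : U + 8 ≤ E1) :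
    ∃ n0 : ℕ, ∀ N : ℕ, n0 ≤ N → ∀ z : ℕ, Real.log ((Q * N : ℕ) : ℝ) ^ E1 ≤ z → (z : ℝ) ≤ Real.log ((Q * N : ℕ) : ℝ) ^ (E1 + 1) →
    ∀ a b c : ℕ, a ≤ Q → b ≤ Q → c ≤ B * N → Ok a b c →
    |W a b c N (fun n => ArithmeticFunction.vonMangoldt n) (fun n => ArithmeticFunction.vonMangoldt n) -
      W a b c N (lamz z) (lamz z)| ≤ N / Real.log N ^ (U + 3) → Formula ε U N a b c := by
  classical
  obtain ⟨n1, h1⟩ := sizes Q hQ
  obtain ⟨n2, h2⟩ := det_core 2 1 (B + 1) (U + 1) (by norm_num) (ε / 4) (by positivity) E1 (by omega) (by omega)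
  obtain ⟨n3, h3⟩ := t_main0 2 (E1 + 2) (U + 3) (by norm_num)
  obtain ⟨n4, h4⟩ := Vz_inv_small (E1 + 1)
  obtain ⟨cS, hcS0, hcS⟩ := S_low 2 (by norm_num)
  have hQ0 : (1 : ℝ) ≤ Q := by exact_mod_cast hQ
  have hlogQ : 0 ≤ Real.log Q := Real.log_nonneg hQ0
  obtain ⟨n5, h5⟩ := ev_L' ((Q : ℝ) * 2 ^ (U + 5) + 2 ^ (E1 + 2) + 8 * Real.log Q / ε + 2)
  obtain ⟨n6, h6⟩ := ev_log' (U + 4) ((Q : ℝ) * 2 ^ (U + 9) + 96 + 8 * Q / (ε * cS) + 16 * Q / ε)
  refine ⟨n1 + n2 + n3 ^ 2 + n4 + n5 + n6 + Q ^ 2 + 2 * Q + B + 4, fun N hN z hz1 hz2 a b c haQ hbQ hcB hOk hdiff => ?_⟩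
  obtain ⟨ha1, hb1, hc1, hab, hac, hbc, h2abc⟩ := hOk
  have hOk' : Ok a b c := ⟨ha1, hb1, hc1, hab, hac, hbc, h2abc⟩
  obtain ⟨u, v, hv, huv⟩ := ex_sol a b c ha1 hab
  obtain ⟨s1, s2, s3, s4, s5, s6, s7, s8⟩ := h1 N (by omega) a v ha1 haQ hv
  have hNM : N ≤ Q * N := Nat.le_mul_of_pos_left _ hQ
  have a2 := h2 (Q * N) (by omega) z hz1 hz2 ((N - v) / a) s1
  have a4 := h4 (Q * N) (by omega) z
  have a5 := h5 N (by omega)
  have a6 := h6 N (by omega)
  obtain ⟨x, hx⟩ : ∃ x, x = (N - v) / a := ⟨_, rfl⟩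
  obtain ⟨M, hM⟩ : ∃ M, M = Q * N := ⟨_, rfl⟩
  rw [← hM] at s1 s2 s7 s8 a2 a4 hz1 hz2 hNM
  rw [← hx] at s1 s2 s3 s4 s5 s6 a2
  obtain ⟨L, hL⟩ : ∃ L : ℝ, L = Real.log (M : ℝ) := ⟨_, rfl⟩
  obtain ⟨l, hl⟩ : ∃ l : ℝ, l = Real.log (N : ℝ) := ⟨_, rfl⟩
  have hN0 : (0 : ℝ) < N := by exact_mod_cast (by omega : 0 < N)
  have hN1 : (1 : ℝ) ≤ N := by exact_mod_cast (by omega : 1 ≤ N)
  have hMr : (M : ℝ) = Q * N := by rw [hM]; push_cast; rfl
  have hLl : L = Real.log Q + l := by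
    rw [hL, hl, hMr, Real.log_mul (by positivity) hN0.ne']
  rw [← hL, ← hl] at s7 s8
  rw [← hL] at a2 a4 hz1 hz2
  rw [← hl] at a5 a6 hdiff
  have p1 : (0 : ℝ) < 2 ^ (U + 5) := by positivity
  have p2 : (0 : ℝ) < 2 ^ (E1 + 2) := by positivity
  have p3 : (0 : ℝ) ≤ 8 * Real.log Q / ε := by positivity
  have p4 : (2 : ℝ) ^ (U + 5) ≤ Q * 2 ^ (U + 5) := le_mul_of_one_le_left p1.le hQ0
  have hl2 : 2 ≤ l := by linarith
  have hl0 : 0 < l := by linarith
  have hL2 : 2 ≤ L := by linarith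
  have hL0 : 0 < L := by linarith
  have hsq : √(N : ℝ) * √(N : ℝ) = N := Real.mul_self_sqrt hN0.le
  have hsN1 : 1 ≤ √(N : ℝ) := by rw [Real.one_le_sqrt]; exact hN1
  have hMN : √(N : ℝ) ≤ √(M : ℝ) := Real.sqrt_le_sqrt (by exact_mod_cast hNM)
  have hx0 : (0 : ℝ) < x := by linarith
  have hxn : 1 ≤ x := by exact_mod_cast hx0
  have hxn3 : n3 ≤ x := by
    have e5 : (n3 : ℝ) ≤ √(N : ℝ) := by
      apply Real.le_sqrt_of_sq_le
      exact_mod_cast (by omega : n3 ^ 2 ≤ N)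
    exact_mod_cast (e5.trans hMN).trans s2
  obtain ⟨l1, hl1⟩ : ∃ l1 : ℝ, l1 = Real.log (x : ℝ) := ⟨_, rfl⟩
  have hM0 : (0 : ℝ) < M := by rw [hMr]; positivity
  have hLl1 : L ≤ 2 * l1 := by
    have e5 : Real.log (√(M : ℝ)) ≤ l1 := by rw [hl1]; exact Real.log_le_log (by linarith) s2
    have e6 : Real.log (√(M : ℝ)) = L / 2 := by rw [Real.log_sqrt hM0.le, hL]
    linarith
  have hl10 : 0 < l1 := by linarith
  have hL1 : 1 ≤ L := by linarith
  have hzn : 1 ≤ z := by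
    have : (1 : ℝ) ≤ z := (one_le_pow₀ hL1).trans hz1
    exact_mod_cast this
  have hVz := a4 hzn hz2
  have hzx : (z : ℝ) ≤ l1 ^ (E1 + 2) := by
    refine hz2.trans ?_
    calc L ^ (E1 + 1) ≤ (2 * l1) ^ (E1 + 1) := pow_le_pow_left₀ hL0.le hLl1 _
      _ = 2 ^ (E1 + 1) * l1 ^ (E1 + 1) := mul_pow _ _ _
      _ ≤ l1 * l1 ^ (E1 + 1) := by
          apply mul_le_mul_of_nonneg_right _ (by positivity)
          have : (2 : ℝ) ^ (E1 + 2) = 2 * 2 ^ (E1 + 1) := by ring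
          linarith
      _ = _ := by ring
  -- the main term of the model
  have hpos : PosF (Cf a b) (Hf u v) x := by
    intro i
    revert i
    rw [Fin.forall_fin_two]
    constructor
    · show 1 ≤ (b : ℤ) + (u : ℤ) ∧ 1 ≤ (b : ℤ) * (x : ℤ) + (u : ℤ)
      have : 1 ≤ b * x := Nat.mul_pos hb1 hxn
      exact ⟨by exact_mod_cast (by omega : 1 ≤ b + u), by exact_mod_cast (by omega : 1 ≤ b * x + u)⟩
    · show 1 ≤ (a : ℤ) + (v : ℤ) ∧ 1 ≤ (a : ℤ) * (x : ℤ) + (v : ℤ)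
      have : 1 ≤ a * x := Nat.mul_pos ha1 hxn
      exact ⟨by exact_mod_cast (by omega : 1 ≤ a + v), by exact_mod_cast (by omega : 1 ≤ a * x + v)⟩
  have hadm := adm a b c hOk' u v huv
  have hmod := h3 x hxn3 z hzn (by rw [← hl1]; exact hzx) (Cf a b) (Hf u v) hpos hadm
  rw [← hl1] at hmod
  have herr := err_half x L l1 U hx0.le hL0 hl10 hLl1 (by
    have : (2 : ℝ) ^ (U + 5) = 2 * 2 ^ (U + 4) := by ring
    have e5 : (0 : ℝ) < 2 ^ (U + 4) := by positivity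
    linarith)
  -- the sizes of the numbers
  have hvQ : v ≤ Q := by omega
  have hu_le : u ≤ b * v + c := by rw [← huv]; exact Nat.le_mul_of_pos_left _ ha1
  have hNN : (N : ℝ) ≤ M := by exact_mod_cast hNM
  have hbv : b * v ≤ Q * Q := Nat.mul_le_mul hbQ hvQ
  have hQQ : Q * Q = Q ^ 2 := (sq Q).symm
  have hval : ∀ n, n ≤ x → b * n + u ≤ M * M ∧ a * n + v ≤ M * M := by
    intro n hn
    have e1 : b * n ≤ Q * N := by
      apply Nat.mul_le_mul hbQ
      have : x ≤ a * x := Nat.le_mul_of_pos_left _ ha1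
      have e2 : a * x ≤ N := by exact_mod_cast s3
      omega
    have e2 : a * n ≤ N := by
      have e3 : a * n ≤ a * x := Nat.mul_le_mul_left _ hn
      have e4 : a * x ≤ N := by exact_mod_cast s3
      omega
    have e3 : (Q + B + 1) * N ≤ N * N := Nat.mul_le_mul_right _ (by omega)
    have e4 : (Q + B + 1) * N = Q * N + B * N + N := by ring
    have e5 : N * N ≤ M * M := Nat.mul_le_mul hNM hNM
    constructor
    · omega
    · omega
  have hM2 : (1 : ℝ) ≤ (M : ℝ) * M := by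
    have : (1 : ℝ) ≤ M := by linarith
    exact one_le_mul_of_one_le_of_one_le this this
  have hlogMM : Real.log ((M : ℝ) * M) = 2 * L := by
    rw [Real.log_mul hM0.ne' hM0.ne', hL]
    ring
  have hΛ : ∀ n, n ≤ x → ArithmeticFunction.vonMangoldt (b * n + u) ≤ 2 * L ∧ ArithmeticFunction.vonMangoldt (a * n + v) ≤ 2 * L := by
    intro n hn
    obtain ⟨e1, e2⟩ := hval n hn
    rw [← hlogMM]
    exact ⟨vM_le _ _ hM2 (by exact_mod_cast e1), vM_le _ _ hM2 (by exact_mod_cast e2)⟩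
  have hQN : a ≤ N := by omega
  have hΛv : ArithmeticFunction.vonMangoldt v ≤ L := by
    refine (vM_le v (M : ℝ) (by linarith) ?_).trans (le_of_eq hL.symm)
    exact_mod_cast (by omega : v ≤ M)
  -- the two sums
  obtain ⟨e, he⟩ : ∃ e : ℝ, e = if v = 0 then 0 else ArithmeticFunction.vonMangoldt v * ArithmeticFunction.vonMangoldt u := ⟨_, rfl⟩
  obtain ⟨e', he'⟩ : ∃ e' : ℝ, e' = if v = 0 then 0 else lamz z v * lamz z u := ⟨_, rfl⟩
  obtain ⟨T, hT⟩ : ∃ T : ℝ, T = ∑ n ∈ Icc 1 x, ∏ i, lamI (Cf a b i * (n : ℤ) + Hf u v i) := ⟨_, rfl⟩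
  obtain ⟨T', hT'⟩ : ∃ T' : ℝ, T' = ∑ n ∈ Icc 1 x, ∏ i, lamzI z (Cf a b i * (n : ℤ) + Hf u v i) := ⟨_, rfl⟩
  have hW1 : W a b c N (fun n => ArithmeticFunction.vonMangoldt n) (fun n => ArithmeticFunction.vonMangoldt n) = e + T := by
    rw [W_split a b c N v u ha1 hab hv huv hQN, he, hT, ← hx]
    congr 1
    apply sum_congr rfl
    intro n _
    rw [prod_two, lamI_nat, lamI_nat, mul_comm]
  have hW2 : W a b c N (lamz z) (lamz z) = e' + T' := by
    rw [W_split a b c N v u ha1 hab hv huv hQN, he', hT', ← hx]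
    congr 1
    apply sum_congr rfl
    intro n hn
    rw [mem_Icc] at hn
    have e1 : 1 ≤ a * n := Nat.mul_pos ha1 hn.1
    have e2 : 1 ≤ b * n := Nat.mul_pos hb1 hn.1
    rw [prod_two, lamzI_nat _ _ (by omega), lamzI_nat _ _ (by omega), mul_comm]
  have he0 : 0 ≤ e := by
    rw [he]
    split_ifs
    · exact le_rfl
    · exact mul_nonneg ArithmeticFunction.vonMangoldt_nonneg ArithmeticFunction.vonMangoldt_nonneg
  have he2 : e ≤ 2 * L ^ 2 := by
    rw [he]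
    split_ifs
    · positivity
    · have e1 := (hΛ 0 (Nat.zero_le _)).1
      rw [mul_zero, zero_add] at e1
      calc ArithmeticFunction.vonMangoldt v * ArithmeticFunction.vonMangoldt u ≤ L * (2 * L) :=
            mul_le_mul hΛv e1 ArithmeticFunction.vonMangoldt_nonneg hL0.le
        _ = _ := by ring
  have he0' : 0 ≤ e' := by
    rw [he']
    split_ifs
    · exact le_rfl
    · exact mul_nonneg (lamz_nonneg _ _) (lamz_nonneg _ _)
  have he2' : e' ≤ L ^ 2 := by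
    rw [he']
    split_ifs
    · positivity
    · calc lamz z v * lamz z u ≤ L * L :=
            mul_le_mul ((lamz_le z v).trans hVz) ((lamz_le z u).trans hVz) (lamz_nonneg _ _) hL0.le
        _ = _ := by ring
  have hxN : (x : ℝ) ≤ N := s5.trans (div_le_self hN0.le (by exact_mod_cast ha1))
  have hL20 : 0 < L ^ 2 := by positivity
  -- the size of N
  have hbigN : ∀ C : ℝ, 0 ≤ C → C ≤ (Q : ℝ) * 2 ^ (U + 9) + 96 + 8 * Q / (ε * cS) + 16 * Q / ε → ∀ w : ℕ, w ≤ U + 4 → C * l ^ w ≤ N := by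
    intro C hC0 hC w hw
    have e1 : C * l ^ w ≤ ((Q : ℝ) * 2 ^ (U + 9) + 96 + 8 * Q / (ε * cS) + 16 * Q / ε) * l ^ (U + 4) :=
      mul_le_mul hC (pow_le_pow_right₀ (by linarith) hw) (by positivity) (hC0.trans hC)
    refine (e1.trans a6).trans ?_
    calc √(N : ℝ) ≤ √(N : ℝ) * √(N : ℝ) := le_mul_of_one_le_left (by positivity) hsN1
      _ = N := hsq
  have q0 : 0 ≤ (Q : ℝ) * 2 ^ (U + 9) := by positivity
  have q1 : 0 ≤ 8 * (Q : ℝ) / (ε * cS) := by positivity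
  have q2 : 0 ≤ 16 * (Q : ℝ) / ε := by positivity
  have hTT : |T - T'| ≤ 1 / 2 * (x / L ^ (U + 2)) := by
    rw [hW1, hW2] at hdiff
    have e1 : |T - T'| ≤ N / l ^ (U + 3) + 3 * L ^ 2 := by
      have e2 : T - T' = (e + T - (e' + T')) + (e' - e) := by ring
      rw [e2]
      refine (abs_add_le _ _).trans (add_le_add hdiff ?_)
      rw [abs_le]
      constructor
      · linarith
      · linarith
    exact e1.trans (conv_T N x L l Q U s4 hx0 hQ0 hl2 hL0 s7 (by linarith) (hbigN _ q0 (by linarith) _ le_rfl))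
  have hall : |T - singF (Cf a b) (Hf u v) z * x| ≤ x / L ^ (U + 1 + 1) := by
    have e1 : T - singF (Cf a b) (Hf u v) z * x = (T - T') + (T' - singF (Cf a b) (Hf u v) z * x) := by ring
    rw [e1]
    refine (abs_add_le _ _).trans ?_
    have e2 : (x : ℝ) / L ^ (U + 1 + 1) = 1 / 2 * (x / L ^ (U + 2)) + 1 / 2 * (x / L ^ (U + 2)) := by ring
    rw [e2]
    refine add_le_add hTT ?_
    rw [hT']
    exact hmod.trans herr
  have huM : (u : ℤ) ≤ ((B + 1 : ℕ) : ℤ) * (M : ℤ) := by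
    have e1 : u ≤ (B + 1) * M := by
      have e2 : Q * Q ≤ M := by
        have : Q * Q ≤ Q * N := Nat.mul_le_mul_left _ (by omega)
        omega
      have e3 : B * N ≤ B * M := Nat.mul_le_mul_left _ hNM
      have e4 : (B + 1) * M = B * M + M := by ring
      omega
    exact_mod_cast e1
  obtain ⟨S, hS0, hS, hS1, hS2⟩ := a2 (Cf a b) (Hf u v) (by
    intro i
    revert i
    rw [Fin.forall_fin_two]
    have e2 : a * x ≤ N := by exact_mod_cast s3
    have e3 : x ≤ a * x := Nat.le_mul_of_pos_left _ ha1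
    constructor
    · show (1 : ℤ) ≤ (b : ℤ) ∧ (b : ℤ) * (x : ℤ) ≤ (M : ℤ)
      refine ⟨by exact_mod_cast hb1, ?_⟩
      have : b * x ≤ Q * N := Nat.mul_le_mul hbQ (by omega)
      rw [hM]
      exact_mod_cast this
    · show (1 : ℤ) ≤ (a : ℤ) ∧ (a : ℤ) * (x : ℤ) ≤ (M : ℤ)
      exact ⟨by exact_mod_cast ha1, by exact_mod_cast e2.trans hNM⟩) (by
    intro i
    revert i
    rw [Fin.forall_fin_two]
    constructor
    · show (0 : ℤ) ≤ (u : ℤ) ∧ (u : ℤ) ≤ ((B + 1 : ℕ) : ℤ) * (M : ℤ)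
      exact ⟨by positivity, huM⟩
    · show (0 : ℤ) ≤ (v : ℤ) ∧ (v : ℤ) ≤ ((B + 1 : ℕ) : ℤ) * (M : ℤ)
      refine ⟨by positivity, ?_⟩
      have : v ≤ (B + 1) * M := by
        have e3 : 1 * M ≤ (B + 1) * M := Nat.mul_le_mul_right _ (by omega)
        omega
      exact_mod_cast this) (by
    have hcz : (a : ℤ) * u = b * v + c := by exact_mod_cast huv
    have hc0 : (c : ℤ) ≠ 0 := by exact_mod_cast (by omega : c ≠ 0)
    intro i j
    revert i j
    rw [Fin.forall_fin_two]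
    constructor
    · rw [Fin.forall_fin_two]
      constructor
      · intro h; exact absurd rfl h
      · intro _
        show (b : ℤ) * (v : ℤ) ≠ (a : ℤ) * (u : ℤ)
        rw [hcz]
        intro h
        apply hc0
        linarith
    · rw [Fin.forall_fin_two]
      constructor
      · intro _
        show (a : ℤ) * (u : ℤ) ≠ (b : ℤ) * (v : ℤ)
        rw [hcz]
        intro h
        apply hc0
        linarith
      · intro h; exact absurd rfl h) hadm (by rw [← hT]; exact hall)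
  rw [← hT] at hS1
  rw [sing_eq a b c hOk' u v huv] at hS
  have hcS' : cS ≤ S := hcS (Cf a b) (Hf u v) hadm S (by rw [sing_eq a b c hOk' u v huv]; exact hS)
  have hT2 : T ≤ x * (4 * L ^ 2) := by
    rw [hT]
    calc ∑ n ∈ Icc 1 x, ∏ i, lamI (Cf a b i * (n : ℤ) + Hf u v i) ≤ ∑ n ∈ Icc 1 x, 4 * L ^ 2 := by
          apply sum_le_sum
          intro n hn
          rw [mem_Icc] at hn
          rw [prod_two, lamI_nat, lamI_nat]
          obtain ⟨e1, e2⟩ := hΛ n hn.2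
          calc ArithmeticFunction.vonMangoldt (b * n + u) * ArithmeticFunction.vonMangoldt (a * n + v) ≤ (2 * L) * (2 * L) :=
                mul_le_mul e1 e2 ArithmeticFunction.vonMangoldt_nonneg (by linarith)
            _ = _ := by ring
      _ = x * (4 * L ^ 2) := by rw [sum_const, Nat.card_Icc, Nat.add_sub_cancel, nsmul_eq_mul]
  have hYN : (N : ℝ) / a ≤ N := div_le_self hN0.le (by exact_mod_cast ha1)
  refine ⟨S, hS0, hS, ?_, ?_⟩
  · rw [← hl]
    have e1 : ∑ q ∈ Icc 1 N, (if a ∣ b * q + c then ArithmeticFunction.vonMangoldt q *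
        ArithmeticFunction.vonMangoldt ((b * q + c) / a) else 0) =
        W a b c N (fun n => ArithmeticFunction.vonMangoldt n) (fun n => ArithmeticFunction.vonMangoldt n) := by
      unfold W
      apply sum_congr rfl
      intro q _
      split_ifs
      · rfl
      · rw [mul_zero]
    rw [e1]
    exact conv_w _ e T S x N (N / a) l L U hW1 (by rw [abs_of_nonneg he0]; exact he2) hS1 hT2 hS0 hx0 s5 s6 hYN hl2 s8 s7
      (hbigN 96 (by norm_num) (by linarith) (U + 2) (by omega))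
  · rw [← hl]
    have e1 := sol_W a b c N ha1
    rw [W_split a b c N v u ha1 hab hv huv hQN, ← hx, ← cnt_sum a b u v x] at e1
    refine conv_c (sol a b c N) _ (cntF (Cf a b) (Hf u v) x) S x N (N / a) l L ε cS (Real.log Q) Q e1 ?_ ?_ hS2 hcS0 hcS' hx0 s5 s6 hQ0 ?_
      hl2 hLl hlogQ hε ?_ ?_ ?_
    · split_ifs <;> norm_num
    · split_ifs <;> norm_num
    · rw [mul_div_assoc', le_div_iff₀ (by exact_mod_cast ha1)]
      rw [mul_comm]
      exact mul_le_mul_of_nonneg_right (by exact_mod_cast haQ) hN0.le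
    · have e2 : 8 * Real.log Q / ε ≤ l := by linarith
      rw [div_le_iff₀ hε] at e2
      linarith
    · have e2 := hbigN (16 * Q / ε) q2 (by linarith) 0 (by omega)
      rw [pow_zero, mul_one, div_le_iff₀ hε] at e2
      linarith
    · have e2 := hbigN (8 * Q / (ε * cS)) q1 (by linarith) 2 (by omega)
      rw [div_mul_eq_mul_div, div_le_iff₀ (by positivity)] at e2
      linarith

end Pool.Agent.N699.SB
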