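import Pool.Agent.N699.SB.Fin
import Pool.Agent.N469.PT.Pal

set_option autoImplicit false

/-! The number of the exceptional palindromes. -/

namespace Pool.Agent.N699.SB
open Finset
open Pool.Agent.TH872.Mir
open Pool.Agent.N469.PT

open Classical in
lemma pals_one (b k : ℕ) (hb : 2 ≤ b) (hk : 2 ≤ k) (P : ℕ → Prop) (δ : ℝ)
    (h : ∑ v ∈ range (b ^ k), (if P v then weight b k (w0 b) (fun _ => 1 / (b : ℝ)) v else 0) ≤ δ) :
    (((Pals b k).filter P).card : ℝ) ≤ ((Pals b k).card : ℝ) * δ := by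
  have h1 : k = 2 * (k / 2) + k % 2 := by omega
  obtain ⟨c, hc, hcv⟩ : ∃ c : ℝ, 0 < c ∧ ∀ v, v < b ^ k →
      weight b k (w0 b) (fun _ => 1 / (b : ℝ)) v = if IsPal b k v then c else 0 := by
    have := weight_pal b (k / 2) (k % 2) hb (by omega) (by omega)
    rwa [← h1] at this
  have htot : ((Pals b k).card : ℝ) * c = 1 := by
    have hb0 : (0 : ℝ) < b := by exact_mod_cast (by omega : 0 < b)
    have h2 := weight_total b (k / 2) (k % 2) (by omega) (by omega) _ (w0 b) (fun _ => 1 / (b : ℝ))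
      (w0_mirr b (k / 2) hb) (by rw [sum_const, card_range, nsmul_eq_mul, mul_one_div, div_self hb0.ne'])
    rw [← h1] at h2
    rw [← h2, sum_congr rfl (fun v hv => hcv v (mem_range.1 hv)), ← sum_filter, sum_const, nsmul_eq_mul]
    rfl
  have hsub : (Pals b k).filter P ⊆ range (b ^ k) := (filter_subset _ _).trans (filter_subset _ _)
  have hnn : ∀ v ∈ range (b ^ k), 0 ≤ weight b k (w0 b) (fun _ => 1 / (b : ℝ)) v := by
    intro v hv
    rw [hcv v (mem_range.1 hv)]
    split_ifs
    · exact hc.le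
    · exact le_rfl
  have hlow : (((Pals b k).filter P).card : ℝ) * c ≤ δ := by
    refine le_trans (le_of_eq ?_) ((sum_le_sum_of_subset_of_nonneg hsub (fun v hv _ => ?_)).trans h)
    · rw [← nsmul_eq_mul, ← sum_const]
      apply sum_congr rfl
      intro v hv
      rw [mem_filter] at hv
      have h3 := mem_filter.1 hv.1
      rw [if_pos hv.2, hcv v (mem_range.1 h3.1), if_pos h3.2]
    · split_ifs
      · exact hnn v hv
      · exact le_rfl
  have hF0 : (0 : ℝ) ≤ ((Pals b k).card : ℝ) := Nat.cast_nonneg _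
  calc (((Pals b k).filter P).card : ℝ) = (((Pals b k).filter P).card : ℝ) * (((Pals b k).card : ℝ) * c) := by rw [htot, mul_one]
    _ = ((Pals b k).card : ℝ) * ((((Pals b k).filter P).card : ℝ) * c) := by ring
    _ ≤ _ := mul_le_mul_of_nonneg_left hlow hF0

end Pool.Agent.N699.SB
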