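import Pool.Agent.N699.SA.OL
import Pool.Agent.N699.ST.Frm

set_option autoImplicit false

/-! Sums over the solutions of `a m = b q + c`. -/

namespace Pool.Agent.N699.SB
open Finset
open Pool.Agent.H373R2.T7
open Pool.Agent.N699.SA

/-- the sum over the solutions of `a m = b q + c`, `1 ≤ q ≤ N` -/
noncomputable def W (a b c N : ℕ) (f g : ℕ → ℝ) : ℝ := ∑ q ∈ Icc 1 N, f q * (if a ∣ b * q + c then g ((b * q + c) / a) else 0)

lemma ex_sol (a b c : ℕ) (ha : 1 ≤ a) (hab : Nat.Coprime a b) : ∃ u v : ℕ, v < a ∧ a * u = b * v + c := by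
  have ha0 : (0 : ℤ) < (a : ℤ) := by exact_mod_cast ha
  obtain ⟨s, t, hst⟩ : IsCoprime (b : ℤ) (a : ℤ) := Nat.isCoprime_iff_coprime.2 hab.symm
  obtain ⟨v, hv⟩ : ∃ v : ℕ, (v : ℤ) = (-(c : ℤ) * s) % (a : ℤ) := ⟨_, Int.toNat_of_nonneg (Int.emod_nonneg _ ha0.ne')⟩
  have hv2 : (v : ℤ) < a := by rw [hv]; exact Int.emod_lt_of_pos _ ha0
  have h3 := Int.emod_add_mul_ediv (-(c : ℤ) * s) (a : ℤ)
  rw [← hv] at h3
  have hd : (a : ℤ) ∣ ((b * v + c : ℕ) : ℤ) := by
    refine ⟨c * t - b * (-(c : ℤ) * s / (a : ℤ)), ?_⟩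
    have h5 : (v : ℤ) = -(c : ℤ) * s - (a : ℤ) * (-(c : ℤ) * s / (a : ℤ)) := by linarith
    push_cast
    rw [h5]
    linear_combination (c : ℤ) * (-1) * hst
  obtain ⟨u, hu⟩ := Int.natCast_dvd_natCast.1 hd
  exact ⟨u, v, by exact_mod_cast hv2, hu.symm⟩

lemma W_split (a b c N v u : ℕ) (ha : 1 ≤ a) (hab : Nat.Coprime a b) (hv : v < a) (huv : a * u = b * v + c)
    (hN : a ≤ N) (f g : ℕ → ℝ) :
    W a b c N f g = (if v = 0 then 0 else f v * g u) + ∑ n ∈ Icc 1 ((N - v) / a), f (a * n + v) * g (b * n + u) := by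
  classical
  have hval : ∀ n, b * (a * n + v) + c = a * (b * n + u) := by
    intro n
    rw [mul_add, mul_add, huv]
    ring
  have hiff : ∀ q, a ∣ b * q + c ↔ ∃ n, q = a * n + v := by
    intro q
    constructor
    · intro h
      have h1 : (a : ℤ) ∣ (b : ℤ) * ((q : ℤ) - v) := by
        have h2 : (a : ℤ) ∣ ((b * q + c : ℕ) : ℤ) := Int.natCast_dvd_natCast.2 h
        have h3 : (a : ℤ) ∣ ((b * v + c : ℕ) : ℤ) := Int.natCast_dvd_natCast.2 ⟨u, huv.symm⟩
        have h4 := dvd_sub h2 h3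
        have e : ((b * q + c : ℕ) : ℤ) - ((b * v + c : ℕ) : ℤ) = (b : ℤ) * ((q : ℤ) - v) := by push_cast; ring
        rwa [e] at h4
      have h5 : (a : ℤ) ∣ (q : ℤ) - v := (Nat.isCoprime_iff_coprime.2 hab).dvd_of_dvd_mul_left h1
      obtain ⟨d, hd⟩ := h5
      have hd0 : 0 ≤ d := by
        by_contra hcon
        have h6 : d ≤ -1 := by omega
        have h7 : (a : ℤ) * d ≤ (a : ℤ) * (-1) := mul_le_mul_of_nonneg_left h6 (by positivity)
        have h8 : (v : ℤ) < a := by exact_mod_cast hv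
        have h9 : (0 : ℤ) ≤ q := by positivity
        linarith
      obtain ⟨n, rfl⟩ := Int.eq_ofNat_of_zero_le hd0
      refine ⟨n, ?_⟩
      have : (q : ℤ) = a * n + v := by linarith
      exact_mod_cast this
    · rintro ⟨n, rfl⟩
      rw [hval]
      exact dvd_mul_right _ _
  unfold W
  have h1 : ∀ q ∈ Icc 1 N, f q * (if a ∣ b * q + c then g ((b * q + c) / a) else 0) =
      if a ∣ b * q + c then f q * g ((b * q + c) / a) else 0 := by
    intro q _
    split_ifs
    · rfl
    · rw [mul_zero]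
  rw [sum_congr rfl h1, ← sum_filter]
  have hset : (Icc 1 N).filter (fun q => a ∣ b * q + c) =
      (if v = 0 then ∅ else {v}) ∪ (Icc 1 ((N - v) / a)).image (fun n => a * n + v) := by
    ext q
    rw [mem_filter, mem_Icc, mem_union, mem_image, hiff q]
    constructor
    · rintro ⟨⟨hq1, hq2⟩, n, hn⟩
      rcases Nat.eq_zero_or_pos n with h0 | h0
      · left
        rw [h0, mul_zero, zero_add] at hn
        rw [if_neg (by omega), mem_singleton]
        exact hn
      · right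
        refine ⟨n, mem_Icc.2 ⟨h0, ?_⟩, hn.symm⟩
        rw [Nat.le_div_iff_mul_le (by omega), mul_comm]
        omega
    · rintro (h | ⟨n, hn, rfl⟩)
      · split_ifs at h with h0
        · exact absurd h (notMem_empty _)
        · rw [mem_singleton] at h
          subst h
          exact ⟨⟨by omega, by omega⟩, 0, by ring⟩
      · rw [mem_Icc, Nat.le_div_iff_mul_le (by omega), mul_comm] at hn
        have : 1 ≤ a * n := Nat.mul_pos (by omega) (by omega)
        exact ⟨⟨by omega, by omega⟩, n, rfl⟩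
  rw [hset, sum_union, sum_image]
  · congr 1
    · split_ifs
      · exact sum_empty
      · rw [sum_singleton, ← huv, Nat.mul_div_cancel_left _ (by omega)]
    · apply sum_congr rfl
      intro n _
      rw [hval, Nat.mul_div_cancel_left _ (by omega)]
  · intro n _ n' _ h
    simp only at h
    have h1 : a * n = a * n' := by omega
    exact Nat.eq_of_mul_eq_mul_left (by omega) h1
  · rw [disjoint_left]
    intro q h1 h2
    rw [mem_image] at h2
    obtain ⟨n, hn, hn'⟩ := h2
    rw [mem_Icc] at hn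
    have h3 : 1 ≤ a * n := Nat.mul_pos (by omega) (by omega)
    split_ifs at h1 with h0
    · exact absurd h1 (notMem_empty _)
    · rw [mem_singleton] at h1
      omega

/-- the von Mangoldt function at `m` is replaced by the model -/
lemma W_D1 (a b c N X' z : ℕ) (hX : (b * N + c) / a ≤ X') (hb : 1 ≤ b) (f : ℕ → ℝ) :
    W a b c N f (fun n => ArithmeticFunction.vonMangoldt n) - W a b c N f (lamz z) =
      ∑ q ∈ Icc 1 N, f q * dLI a X' z (((b : ℤ) * (q : ℤ)) + (c : ℤ)) := by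
  unfold W
  rw [← sum_sub_distrib]
  apply sum_congr rfl
  intro q hq
  rw [mem_Icc] at hq
  rw [← mul_sub]
  congr 1
  have e : ((b : ℤ) * (q : ℤ)) + (c : ℤ) = ((b * q + c : ℕ) : ℤ) := by push_cast; ring
  unfold dLI
  rw [e, Int.toNat_natCast]
  have h1 : 1 ≤ b * q := Nat.mul_pos hb hq.1
  have h2 : (1 : ℤ) ≤ ((b * q + c : ℕ) : ℤ) := by exact_mod_cast (by omega : 1 ≤ b * q + c)
  have h3 : (b * q + c) / a ≤ X' := (Nat.div_le_div_right (by
    have : b * q ≤ b * N := Nat.mul_le_mul_left _ hq.2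
    omega)).trans hX
  by_cases hd : a ∣ b * q + c
  · rw [if_pos hd, if_pos hd, if_pos ⟨h2, hd, h3⟩]
  · rw [if_neg hd, if_neg hd, if_neg (fun h => hd h.2.1), sub_zero]

/-- the von Mangoldt function at `q` is replaced by the model -/
lemma W_D2 (a b c N X' z : ℕ) (hX : (b * N + c) / a ≤ X') (ha : 1 ≤ a) (hb : 1 ≤ b) (g : ℕ → ℝ) :
    W a b c N (fun n => ArithmeticFunction.vonMangoldt n) g - W a b c N (lamz z) g =
      ∑ m ∈ Icc 1 X', g m * dLI b N z (((a : ℤ) * (m : ℤ)) + (-(c : ℤ))) := by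
  classical
  have h0 : W a b c N (fun n => ArithmeticFunction.vonMangoldt n) g - W a b c N (lamz z) g =
      ∑ q ∈ (Icc 1 N).filter (fun q => a ∣ b * q + c), (ArithmeticFunction.vonMangoldt q - lamz z q) * g ((b * q + c) / a) := by
    unfold W
    rw [← sum_sub_distrib, sum_filter]
    apply sum_congr rfl
    intro q _
    split_ifs
    · ring
    · ring
  have h1 : ∑ m ∈ Icc 1 X', g m * dLI b N z (((a : ℤ) * (m : ℤ)) + (-(c : ℤ))) =
      ∑ m ∈ (Icc 1 X').filter (fun m => c + 1 ≤ a * m ∧ b ∣ a * m - c ∧ (a * m - c) / b ≤ N),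
        g m * (ArithmeticFunction.vonMangoldt ((a * m - c) / b) - lamz z ((a * m - c) / b)) := by
    rw [sum_filter]
    apply sum_congr rfl
    intro m _
    unfold dLI
    by_cases h2 : c + 1 ≤ a * m
    · have e : ((a : ℤ) * (m : ℤ)) + (-(c : ℤ)) = ((a * m - c : ℕ) : ℤ) := by
        rw [Nat.cast_sub (by omega)]
        push_cast
        ring
      rw [e, Int.toNat_natCast]
      have h3 : (1 : ℤ) ≤ ((a * m - c : ℕ) : ℤ) := by exact_mod_cast (by omega : 1 ≤ a * m - c)
      by_cases h4 : b ∣ a * m - c ∧ (a * m - c) / b ≤ N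
      · rw [if_pos ⟨h3, h4⟩, if_pos ⟨h2, h4⟩]
      · rw [if_neg (fun h => h4 h.2), if_neg (fun h => h4 h.2), mul_zero]
    · have h3 : ¬ (1 ≤ ((a : ℤ) * (m : ℤ)) + (-(c : ℤ))) := by
        intro h4
        apply h2
        have h5 : (c : ℤ) + 1 ≤ (a : ℤ) * m := by linarith
        exact_mod_cast h5
      rw [if_neg (fun h => h3 h.1), if_neg (fun h => h2 h.1), mul_zero]
  rw [h0, h1]
  refine sum_nbij' (fun q => (b * q + c) / a) (fun m => (a * m - c) / b) ?_ ?_ ?_ ?_ ?_
  · intro q hq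
    rw [mem_filter, mem_Icc] at hq
    obtain ⟨⟨hq1, hq2⟩, m, hm⟩ := hq
    rw [hm, Nat.mul_div_cancel_left _ (by omega)]
    have h3 : 1 ≤ b * q := Nat.mul_pos hb hq1
    have h4 : a * m - c = b * q := by omega
    rw [mem_filter, mem_Icc]
    refine ⟨⟨?_, ?_⟩, by omega, ?_, ?_⟩
    · by_contra hcon
      have : m = 0 := by omega
      rw [this, mul_zero] at hm
      omega
    · refine le_trans ?_ hX
      rw [Nat.le_div_iff_mul_le (by omega), mul_comm, ← hm]
      have : b * q ≤ b * N := Nat.mul_le_mul_left _ hq2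
      omega
    · rw [h4]; exact dvd_mul_right _ _
    · rw [h4, Nat.mul_div_cancel_left _ (by omega)]
      exact hq2
  · intro m hm
    rw [mem_filter, mem_Icc] at hm
    obtain ⟨⟨hm1, hm2⟩, hm3, ⟨q, hq⟩, hm5⟩ := hm
    rw [hq, Nat.mul_div_cancel_left _ (by omega)] at hm5 ⊢
    rw [mem_filter, mem_Icc]
    refine ⟨⟨?_, hm5⟩, ?_⟩
    · by_contra hcon
      have : q = 0 := by omega
      rw [this, mul_zero] at hq
      omega
    · have : b * q + c = a * m := by omega
      rw [this]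
      exact dvd_mul_right _ _
  · intro q hq
    rw [mem_filter, mem_Icc] at hq
    obtain ⟨⟨hq1, hq2⟩, m, hm⟩ := hq
    rw [hm, Nat.mul_div_cancel_left _ (by omega)]
    have h4 : a * m - c = b * q := by omega
    rw [h4, Nat.mul_div_cancel_left _ (by omega)]
  · intro m hm
    rw [mem_filter, mem_Icc] at hm
    obtain ⟨⟨hm1, hm2⟩, hm3, ⟨q, hq⟩, hm5⟩ := hm
    rw [hq, Nat.mul_div_cancel_left _ (by omega)]
    have : b * q + c = a * m := by omega
    rw [this, Nat.mul_div_cancel_left _ (by omega)]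
  · intro q hq
    rw [mem_filter, mem_Icc] at hq
    obtain ⟨⟨hq1, hq2⟩, m, hm⟩ := hq
    rw [hm, Nat.mul_div_cancel_left _ (by omega)]
    have h4 : a * m - c = b * q := by omega
    rw [h4, Nat.mul_div_cancel_left _ (by omega)]
    ring

end Pool.Agent.N699.SB
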